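import Mathlib

set_option autoImplicit false

/-!
# Small sets, recursive choice, and filtrations of singular cardinals
-/

namespace Pool.Agent.H651R2

open Cardinal Set

universe u v w

/-- unions of few small sets are small -/
theorem small_iUnion {ι α : Type u} {c : Cardinal.{u}} (hc : ℵ₀ ≤ c) (hι : #ι ≤ c)
    (f : ι → Set α) (hf : ∀ i, #(f i) ≤ c) : #(⋃ i, f i) ≤ c := by
  refine (Cardinal.mk_iUnion_le f).trans ?_
  calc #ι * (⨆ i, #(f i)) ≤ c * c := mul_le_mul' hι (ciSup_le' hf)
    _ = c := Cardinal.mul_eq_self hc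

theorem small_biUnion {ι α : Type u} {c : Cardinal.{u}} (hc : ℵ₀ ≤ c) (s : Set ι) (hs : #s ≤ c)
    (f : ι → Set α) (hf : ∀ i ∈ s, #(f i) ≤ c) : #(⋃ i ∈ s, f i) ≤ c := by
  rw [biUnion_eq_iUnion]
  exact small_iUnion hc hs _ (fun i => hf i.1 i.2)

theorem small_union {α : Type u} {c : Cardinal.{u}} (hc : ℵ₀ ≤ c) {s t : Set α}
    (hs : #s ≤ c) (ht : #t ≤ c) : #(s ∪ t : Set α) ≤ c := by
  refine (Cardinal.mk_union_le s t).trans ?_
  calc #s + #t ≤ c + c := add_le_add hs ht
    _ = c := Cardinal.add_eq_self hc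

theorem small_mono {α : Type u} {c : Cardinal.{u}} {s t : Set α} (h : s ⊆ t) (ht : #t ≤ c) :
    #s ≤ c := (Cardinal.mk_le_mk_of_subset h).trans ht

theorem small_finite {α : Type u} {c : Cardinal.{u}} (hc : ℵ₀ ≤ c) {s : Set α}
    (hs : s.Finite) : #s ≤ c := (hs.lt_aleph0).le.trans hc

theorem small_subsingleton {α : Type u} {c : Cardinal.{u}} (hc : ℵ₀ ≤ c) {s : Set α}
    (hs : s.Subsingleton) : #s ≤ c := small_finite hc hs.finite

theorem not_small_diff {α : Type u} {c : Cardinal.{u}} (hc : ℵ₀ ≤ c) {s t : Set α}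
    (hs : ¬ #s ≤ c) (ht : #t ≤ c) : ¬ #(s \ t : Set α) ≤ c := by
  intro h
  apply hs
  refine small_mono (t := (s \ t) ∪ t) ?_ (small_union hc h ht)
  intro x hx
  by_cases hxt : x ∈ t
  · exact Or.inr hxt
  · exact Or.inl ⟨hx, hxt⟩

theorem exists_of_not_small {α : Type u} {c : Cardinal.{u}} {s : Set α}
    (hs : ¬ #s ≤ c) : s.Nonempty := by
  by_contra h
  rw [Set.not_nonempty_iff_eq_empty] at h
  apply hs
  rw [h]
  simp

/-- Recursive choice along a well-founded relation. -/
theorem rec_choice {ι : Type v} {β : Type w} [Nonempty β] {r : ι → ι → Prop} (wf : WellFounded r)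
    (P : ι → (ι → β) → β → Prop)
    (hloc : ∀ i f g b, (∀ j, r j i → f j = g j) → P i f b → P i g b)
    (hstep : ∀ i f, (∀ j, r j i → P j f (f j)) → ∃ b, P i f b) :
    ∃ f : ι → β, ∀ i, P i f (f i) := by
  classical
  let d : β := Classical.arbitrary β
  let F : ι → β := wf.fix (fun i prev =>
    if h : ∃ b, P i (fun j => if hj : r j i then prev j hj else d) b then h.choose else d)
  have hF : ∀ i, F i =
      if h : ∃ b, P i (fun j => if r j i then F j else d) b then h.choose else d := by
    intro i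
    have := wf.fix_eq (C := fun _ => β) (fun i prev =>
      if h : ∃ b, P i (fun j => if hj : r j i then prev j hj else d) b then h.choose else d) i
    simp only [dite_eq_ite] at this
    exact this
  refine ⟨F, ?_⟩
  intro i
  induction i using wf.induction with
  | _ i ih =>
    have h1 : ∃ b, P i F b := hstep i F ih
    have h2 : ∃ b, P i (fun j => if r j i then F j else d) b := by
      obtain ⟨b, hb⟩ := h1
      exact ⟨b, hloc i F _ b (fun j hj => by simp [hj]) hb⟩
    rw [hF i, dif_pos h2]
    have h3 := h2.choose_spec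
    exact hloc i _ F _ (fun j hj => by simp [hj]) h3

/-- An increasing sequence of cardinals cofinal in `lam`, indexed by a short well-order. -/
structure SData (lam : Cardinal.{u}) (I : Type u) [LinearOrder I] where
  /-- the levels -/
  lv : I → Cardinal.{u}
  inf : ∀ i, ℵ₀ ≤ lv i
  card_le : ∀ i, #I ≤ lv i
  lt : ∀ i j, i < j → Order.succ (lv i) ≤ lv j
  lt_lam : ∀ i, lv i < lam
  succ_lt : ∀ c, c < lam → Order.succ c < lam
  cof : ∀ c, c < lam → ∃ i, c ≤ lv i

theorem SData.mono {lam : Cardinal.{u}} {I : Type u} [LinearOrder I] (S : SData lam I) {i j : I}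
    (h : i ≤ j) : S.lv i ≤ S.lv j := by
  rcases eq_or_lt_of_le h with h | h
  · rw [h]
  · exact (Order.le_succ _).trans (S.lt i j h)

/-- cofinal sequences of cardinals -/
theorem exists_cofinal_cardinals (lam : Cardinal.{u}) :
    ∃ f : lam.ord.cof.ord.ToType → Cardinal.{u}, (∀ i, f i < lam) ∧ ∀ c < lam, ∃ i, c ≤ f i := by
  obtain ⟨S, hS, hSc⟩ := Order.exists_cof_eq lam.ord.ToType
  have hc : #S = #(lam.ord.cof.ord.ToType) := by
    rw [hSc, mk_ord_toType, Ordinal.cof_toType]
  obtain ⟨e⟩ := Cardinal.eq.1 hc.symm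
  refine ⟨fun i => #(Iio (e i).1), fun i => ?_, fun c hc => ?_⟩
  · have := mk_Iio_lt (e i).1 (by rw [mk_ord_toType]; simp)
    rwa [mk_ord_toType] at this
  · have h1 : c.ord < Ordinal.type (α := lam.ord.ToType) (· < ·) := by
      rw [Ordinal.type_toType]
      exact ord_lt_ord.2 hc
    let x : lam.ord.ToType := Ordinal.enum (α := lam.ord.ToType) (· < ·) ⟨c.ord, h1⟩
    have hx : #(Iio x) = c := by
      have h2 : Ordinal.typein (α := lam.ord.ToType) (· < ·) x = c.ord := Ordinal.typein_enum _ _
      have h3 := congrArg Ordinal.card h2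
      rw [card_ord] at h3
      rw [← h3]
      rfl
    obtain ⟨s, hs, hxs⟩ := hS x
    refine ⟨e.symm ⟨s, hs⟩, ?_⟩
    simp only [Equiv.apply_symm_apply]
    rw [← hx]
    exact mk_le_mk_of_subset (Iio_subset_Iio hxs)

theorem exists_sdata (lam : Cardinal.{u}) (h : lam.IsSingular) :
    Nonempty (SData lam lam.ord.cof.ord.ToType) := by
  classical
  have hlam : ℵ₀ ≤ lam := h.aleph0_le
  obtain ⟨f, hf1, hf2⟩ := exists_cofinal_cardinals lam
  have hlim : Order.IsSuccLimit lam := by
    refine ⟨?_, ?_⟩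
    · intro hmin
      have := hmin (b := 0) (zero_le)
      exact absurd (hlam.trans this) (not_le.2 aleph0_pos)
    · intro c hc
      have h1 : Order.succ c = lam := hc.succ_eq
      have h2 : ℵ₀ ≤ c := by
        by_contra hcon
        rw [not_le] at hcon
        have h3 : Order.succ c < ℵ₀ := isSuccLimit_aleph0.succ_lt hcon
        rw [h1] at h3
        exact absurd hlam (not_le.2 h3)
      exact h.not_isRegular (h1 ▸ isRegular_succ h2)
  obtain ⟨lv, hlv⟩ := rec_choice (ι := lam.ord.cof.ord.ToType) (β := Cardinal.{u})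
    (r := (· < ·)) wellFounded_lt
    (fun i g b => b < lam ∧ ℵ₀ ≤ b ∧ lam.ord.cof ≤ b ∧ f i ≤ b ∧
      ∀ j < i, g j < lam → Order.succ (g j) ≤ b)
    (by
      rintro i g g' b hgg ⟨h1, h2, h3, h4, h5⟩
      refine ⟨h1, h2, h3, h4, fun j hj hlt => ?_⟩
      rw [← hgg j hj] at hlt ⊢
      exact h5 j hj hlt)
    (by
      intro i g _
      let s : Iio i → Cardinal.{u} := fun j => if g j < lam then Order.succ (g j) else 0
      have hs : (⨆ j, s j) < lam := by
        refine iSup_lt_of_lt_cof_ord ?_ ?_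
        · have := mk_Iio_lt i (by rw [mk_ord_toType]; simp)
          rwa [mk_ord_toType] at this
        · intro j
          change (if g j < lam then Order.succ (g j) else 0) < lam
          split_ifs with hj
          · exact hlim.succ_lt hj
          · exact aleph0_pos.trans_le hlam
      refine ⟨max (max ℵ₀ lam.ord.cof) (max (f i) (⨆ j, s j)), ?_, ?_, ?_, ?_, ?_⟩
      · have h0 : ℵ₀ < lam := by
          rcases eq_or_lt_of_le hlam with h0 | h0
          · exact absurd (h0 ▸ isRegular_aleph0) h.not_isRegular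
          · exact h0
        exact max_lt (max_lt h0 h.cof_ord_lt) (max_lt (hf1 i) hs)
      · exact (le_max_left _ _).trans (le_max_left _ _)
      · exact (le_max_right _ _).trans (le_max_left _ _)
      · exact (le_max_left _ _).trans (le_max_right _ _)
      · intro j hj hlt
        refine le_trans ?_ ((le_max_right _ _).trans (le_max_right _ _))
        have h1 : Order.succ (g j) = s ⟨j, hj⟩ := (if_pos hlt).symm
        rw [h1]
        exact le_ciSup (Cardinal.bddAbove_of_small) _)
  exact ⟨{
    lv := lv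
    inf := fun i => (hlv i).2.1
    card_le := fun i => by
      rw [mk_ord_toType]
      exact (hlv i).2.2.1
    lt := fun i j hij => (hlv j).2.2.2.2 i hij (hlv i).1
    lt_lam := fun i => (hlv i).1
    succ_lt := fun c hc => hlim.succ_lt hc
    cof := fun c hc => by
      obtain ⟨i, hi⟩ := hf2 c hc
      exact ⟨i, hi.trans (hlv i).2.2.2.1⟩ }⟩

end Pool.Agent.H651R2
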