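import Pool.Agent.H651R2.SingGuess

set_option autoImplicit false

/-!
# A family of sets with small intersections which meets all large sets almost everywhere
-/

namespace Pool.Agent.H651R2

open Cardinal Set

universe u

/-- The filtrations `D n α` of the initial segments. -/
structure DSys {lam : Cardinal.{u}} {I : Type u} [LinearOrder I] (S : SData lam I)
    (K : Type u) [LinearOrder K] where
  /-- the filtration -/
  D : I → K → Set K
  sub : ∀ n α, D n α ⊆ Iio α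
  mono : ∀ m n α, m ≤ n → D m α ⊆ D n α
  union : ∀ α β, β < α → ∃ n, β ∈ D n α
  card : ∀ n α, #(D n α) ≤ S.lv n
  capture : ∀ f : I → Set K, (∀ n, #(f n) ≤ S.lv n) →
    ∃ i : K, ∀ α, i < α → ∃ n0, ∀ n, n0 ≤ n → f n ∩ Iio α ⊆ D n α

section
variable {lam : Cardinal.{u}} {I : Type u} [LinearOrder I] {K : Type u} [LinearOrder K]

/-- auxiliary: the entries used at level m -/
noncomputable def ent (S : SData lam I) (a : K → Xi S → Set K) (i : K) (m : I) : Set K :=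
  open Classical in if #(a i ⟨m, ∅⟩) ≤ S.lv m then a i ⟨m, ∅⟩ else ∅

omit [LinearOrder K] in
theorem mk_ent (S : SData lam I) (a : K → Xi S → Set K) (i : K) (m : I) :
    #(ent S a i m) ≤ S.lv m := by
  unfold ent
  split_ifs with h
  · exact h
  · simp

/-- the filtration -/
def DD (S : SData lam I) (a : K → Xi S → Set K) (g : K → K → FL S) (n : I) (α : K) : Set K :=
  {x | x < α ∧ ∃ m ≤ n, ∃ i < α, g α i ∈ Lv S m ∧ (x = i ∨ x ∈ ent S a i m)}

/-- the system -/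
noncomputable def mkDSys (S : SData lam I) (a : K → Xi S → Set K) (idx : (Xi S → Set K) → K)
    (ha : ∀ F : Xi S → Set K, (∀ ξ, #(F ξ) ≤ lam) → a (idx F) = F)
    (g : K → K → FL S) (hg : ∀ α, InjOn (g α) (Iio α)) : DSys S K where
  D := DD S a g
  sub := fun n α x hx => hx.1
  mono := by
    rintro m n α hmn x ⟨hx, k, hk, h⟩
    exact ⟨hx, k, hk.trans hmn, h⟩
  union := by
    intro α β hβ
    exact ⟨(g α β).1, hβ, (g α β).1, le_rfl, β, hβ, le_refl (g α β).1, Or.inl rfl⟩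
  card := by
    intro n α
    have hc := S.inf n
    have h : DD S a g n α ⊆
        ⋃ m : I, {x | m ≤ n ∧ ∃ i, (i < α ∧ g α i ∈ Lv S m) ∧ (x = i ∨ x ∈ ent S a i m)} := by
      rintro x ⟨_, m, hm, i, hi, hgi, hx⟩
      exact mem_iUnion.2 ⟨m, hm, i, ⟨hi, hgi⟩, hx⟩
    refine small_mono h (small_iUnion hc (S.card_le n) _ ?_)
    intro m
    by_cases hm : m ≤ n
    · have h2 : {x | m ≤ n ∧ ∃ i, (i < α ∧ g α i ∈ Lv S m) ∧ (x = i ∨ x ∈ ent S a i m)} ⊆
          ⋃ i ∈ {i | i < α ∧ g α i ∈ Lv S m}, ({i} ∪ ent S a i m) := by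
        rintro x ⟨_, i, hi, hx⟩
        simp only [mem_iUnion]
        exact ⟨i, hi, hx⟩
      refine small_mono h2 (small_biUnion hc _ ?_ _ ?_)
      · have h3 : #{i | i < α ∧ g α i ∈ Lv S m} ≤ #(Lv S m) := by
          refine Cardinal.mk_le_of_injective
            (f := fun i : {i | i < α ∧ g α i ∈ Lv S m} => (⟨g α i.1, i.2.2⟩ : Lv S m)) ?_
          rintro ⟨x, hx⟩ ⟨y, hy⟩ hxy
          exact Subtype.ext (hg α hx.1 hy.1 (Subtype.ext_iff.1 hxy))
        exact h3.trans ((mk_Lv S m).trans (S.mono hm))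
      · intro i _
        exact small_union hc (small_subsingleton hc subsingleton_singleton)
          ((mk_ent S a i m).trans (S.mono hm))
    · refine small_subsingleton hc ?_
      rintro x ⟨h, _⟩
      exact absurd h hm
  capture := by
    intro f hf
    refine ⟨idx (fun ξ => f ξ.1), ?_⟩
    intro α hα
    refine ⟨(g α (idx (fun ξ => f ξ.1))).1, ?_⟩
    rintro n hn x ⟨hx, hxα⟩
    refine ⟨hxα, n, le_rfl, _, hα, hn, Or.inr ?_⟩
    unfold ent
    have h1 : a (idx (fun ξ => f ξ.1)) ⟨n, ∅⟩ = f n := by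
      rw [ha (fun ξ => f ξ.1) (fun ξ => (hf _).trans (S.lt_lam _).le)]
    rw [h1, if_pos (hf n)]
    exact hx

/-- the assigned set -/
def Nb (X : K → I → Set K) (β : K) : Set K := ⋃ m, X β m

/-- the invariants at `α` -/
structure Inv (S : SData lam I) (D : DSys S K) (E : I → K → Set K) (α : K) (X : K → I → Set K)
    (Y : I → Set K) : Prop where
  sub : ∀ n, Y n ⊆ Iio α
  card : ∀ n, #(Y n) ≤ S.lv n
  disj : ∀ n, ∀ β ∈ D.D n α, ∀ x ∈ Y n, x ∉ Nb X β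
  ladder : ∀ n m δ, Good (S.lv m) δ (E m δ) → #(Y n ∩ E m δ : Set K) ≤ S.lv m
  hit : ∀ n, ∀ δ ∈ D.D n α, Good (S.lv n) δ (E n δ) → ∃ x ∈ Y n, x ∈ E n δ

theorem nb_ladder {S : SData lam I} {D : DSys S K} {E : I → K → Set K} {α : K} {X : K → I → Set K}
    (h : Inv S D E α X (X α)) (m : I) (δ : K) (hδ : Good (S.lv m) δ (E m δ)) :
    #(Nb X α ∩ E m δ : Set K) ≤ S.lv m := by
  have : Nb X α ∩ E m δ = ⋃ n, X α n ∩ E m δ := by
    unfold Nb
    rw [iUnion_inter]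
  rw [this]
  exact small_iUnion (S.inf m) (S.card_le m) _ (fun n => h.ladder n m δ hδ)

/-- accumulation points -/
def Acc (Δ : Set K) : Set K := {δ | ∀ ξ < δ, ∃ x ∈ Δ, ξ < x ∧ x < δ}

theorem mk_Acc [WellFoundedLT K] {c : Cardinal.{u}} (hc : ℵ₀ ≤ c) (Δ : Set K) (hΔ : #Δ ≤ c) :
    #(Acc Δ) ≤ c := by
  have h : Acc Δ ⊆ (⋃ x ∈ Δ, {δ ∈ Acc Δ | δ ≤ x ∧ ∀ y ∈ Δ, δ ≤ y → x ≤ y}) ∪
      {δ ∈ Acc Δ | ∀ y ∈ Δ, y < δ} := by
    intro δ hδ
    by_cases hne : {y ∈ Δ | δ ≤ y}.Nonempty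
    · left
      have hwf : WellFounded ((· < ·) : K → K → Prop) := wellFounded_lt
      simp only [mem_iUnion]
      refine ⟨hwf.min _ hne, (hwf.min_mem _ hne).1, hδ, (hwf.min_mem _ hne).2, ?_⟩
      intro y hy hδy
      exact not_lt.1 (hwf.not_lt_min {y ∈ Δ | δ ≤ y} ⟨hy, hδy⟩)
    · right
      refine ⟨hδ, ?_⟩
      intro y hy
      by_contra h
      exact hne ⟨y, hy, not_lt.1 h⟩
  refine small_mono h (small_union hc (small_biUnion hc Δ hΔ _ ?_) ?_)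
  · intro x _
    refine small_subsingleton hc ?_
    have key : ∀ δ₁ δ₂ : K, δ₁ ∈ {δ ∈ Acc Δ | δ ≤ x ∧ ∀ y ∈ Δ, δ ≤ y → x ≤ y} →
        δ₂ ∈ {δ ∈ Acc Δ | δ ≤ x ∧ ∀ y ∈ Δ, δ ≤ y → x ≤ y} → ¬ δ₁ < δ₂ := by
      rintro δ₁ δ₂ ⟨_, _, h1⟩ ⟨h2, h3, _⟩ hlt
      obtain ⟨y, hy, hy1, hy2⟩ := h2 δ₁ hlt
      exact absurd (h1 y hy hy1.le) (not_le.2 (hy2.trans_le h3))
    intro δ₁ h1 δ₂ h2
    rcases lt_trichotomy δ₁ δ₂ with h | h | h
    · exact absurd h (key _ _ h1 h2)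
    · exact h
    · exact absurd h (key _ _ h2 h1)
  · refine small_subsingleton hc ?_
    have key : ∀ δ₁ δ₂ : K, δ₁ ∈ {δ ∈ Acc Δ | ∀ y ∈ Δ, y < δ} →
        δ₂ ∈ {δ ∈ Acc Δ | ∀ y ∈ Δ, y < δ} → ¬ δ₁ < δ₂ := by
      rintro δ₁ δ₂ ⟨_, h1⟩ ⟨h2, _⟩ hlt
      obtain ⟨y, hy, hy1, _⟩ := h2 δ₁ hlt
      exact absurd (h1 y hy) (not_lt.2 hy1.le)
    intro δ₁ h1 δ₂ h2
    rcases lt_trichotomy δ₁ δ₂ with h | h | h
    · exact absurd h (key _ _ h1 h2)
    · exact h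
    · exact absurd h (key _ _ h2 h1)

/-- one step of the construction -/
theorem step_one [WellFoundedLT K] {S : SData lam I} {D : DSys S K} {E : I → K → Set K}
    {X : K → I → Set K} {α : K}
    (hX : ∀ β < α, Inv S D E β X (X β)) (n : I) :
    ∃ Y : Set K, Y ⊆ Iio α ∧ #Y ≤ S.lv n ∧ (∀ β ∈ D.D n α, ∀ x ∈ Y, x ∉ Nb X β) ∧
      (∀ m δ, Good (S.lv m) δ (E m δ) → #(Y ∩ E m δ : Set K) ≤ S.lv m) ∧
      (∀ δ ∈ D.D n α, Good (S.lv n) δ (E n δ) → ∃ x ∈ Y, x ∈ E n δ) := by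
  classical
  have hc := S.inf n
  let Δ : Set K := {δ | δ ∈ D.D n α ∧ Good (S.lv n) δ (E n δ)}
  have hΔcard : #Δ ≤ S.lv n := small_mono (fun δ hδ => hδ.1) (D.card n α)
  have hΔα : ∀ δ ∈ Δ, δ < α := fun δ hδ => D.sub n α hδ.1
  -- the bad set
  let Bad : Set K := ⋃ m ∈ Iio n, ⋃ δ ∈ {δ ∈ Acc Δ | Good (S.lv m) δ (E m δ)}, E m δ
  have hBad : #Bad ≤ S.lv n := by
    refine small_biUnion hc (Iio n) ((mk_set_le _).trans (S.card_le n)) _ ?_
    intro m hm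
    refine small_biUnion hc _ (small_mono (fun δ hδ => hδ.1) (mk_Acc hc Δ hΔcard)) _ ?_
    intro δ hδ
    exact hδ.2.card_le.trans (S.lt m n hm)
  let T' : Δ → Set K := fun δ => {b ∈ E n δ.1 | b ∉ Bad ∧ (∀ β ∈ D.D n α, b ∉ Nb X β) ∧
    ∀ δ' ∈ Δ, δ' < δ.1 → δ' < b}
  have hT' : ∀ δ, (T' δ).Nonempty := by
    intro δ
    have h1 : ¬ #(E n δ.1 \ (Bad ∪ ((⋃ β ∈ D.D n α, (Nb X β ∩ E n δ.1)) ∪
        ⋃ δ' ∈ {δ' ∈ Δ | δ' < δ.1}, (E n δ.1 ∩ Iic δ'))) : Set K) ≤ S.lv n := by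
      refine not_small_diff hc δ.2.2.not_small (small_union hc hBad (small_union hc ?_ ?_))
      · refine small_biUnion hc _ (D.card n α) _ ?_
        intro β hβ
        exact nb_ladder (hX β (D.sub n α hβ)) n δ.1 δ.2.2
      · refine small_biUnion hc _ (small_mono (fun x hx => hx.1) hΔcard) _ ?_
        intro δ' hδ'
        exact δ.2.2.bdd δ' hδ'.2
    obtain ⟨b, hb, hb2⟩ := exists_of_not_small h1
    simp only [mem_union, mem_iUnion, not_or, not_exists] at hb2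
    obtain ⟨hb3, hb4, hb5⟩ := hb2
    refine ⟨b, hb, ?_, ?_, ?_⟩
    · simpa [Bad] using hb3
    · intro β hβ hbβ
      exact hb4 β hβ ⟨hbβ, hb⟩
    · intro δ' hδ' hlt
      by_contra hnot
      exact hb5 δ' ⟨hδ', hlt⟩ ⟨hb, not_lt.1 hnot⟩
  choose x hx1 using hT'
  have hxE : ∀ δ : Δ, x δ ∈ E n δ.1 := fun δ => (hx1 δ).1
  have hxlt : ∀ δ : Δ, x δ < δ.1 := fun δ => δ.2.2.sub (hxE δ)
  have hxα : ∀ δ : Δ, x δ < α := fun δ => (hxlt δ).trans (hΔα δ.1 δ.2)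
  have hrange : #(range x) ≤ S.lv n := Cardinal.mk_range_le.trans hΔcard
  refine ⟨range x, ?_, hrange, ?_, ?_, ?_⟩
  · rintro _ ⟨δ, rfl⟩
    exact hxα δ
  · rintro β hβ _ ⟨δ, rfl⟩
    exact (hx1 δ).2.2.1 β hβ
  · intro m δ' hδ'
    by_cases hmn : n ≤ m
    · exact (small_mono inter_subset_left hrange).trans (S.mono hmn)
    · have hmn' : m < n := not_le.1 hmn
      have hcm := S.inf m
      by_cases hacc : δ' ∈ Acc Δ
      · have : (range x ∩ E m δ' : Set K) = ∅ := by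
          rw [← not_nonempty_iff_eq_empty]
          rintro ⟨_, ⟨δ, rfl⟩, h⟩
          apply (hx1 δ).2.1
          simp only [Bad, mem_iUnion]
          exact ⟨m, hmn', δ', ⟨hacc, hδ'⟩, h⟩
        rw [this]
        simp
      · unfold Acc at hacc
        simp only [mem_ofPred_eq] at hacc
        push Not at hacc
        obtain ⟨ξ, hξ, hξ2⟩ := hacc
        refine small_mono (t := (E m δ' ∩ Iic ξ) ∪ {y | (∃ δ, x δ = y) ∧ ξ < y ∧ y < δ'}) ?_
          (small_union hcm (hδ'.bdd ξ hξ) (small_subsingleton hcm ?_))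
        · rintro y ⟨hy1, hy2⟩
          by_cases h : y ≤ ξ
          · exact Or.inl ⟨hy2, h⟩
          · exact Or.inr ⟨hy1, not_le.1 h, hδ'.sub hy2⟩
        · have key : ∀ δ₁ δ₂ : Δ, δ₁.1 < δ₂.1 → ξ < x δ₁ → x δ₂ < δ' → False := by
            intro δ₁ δ₂ hlt h1 h2
            have h3 : δ' ≤ δ₁.1 := hξ2 δ₁.1 δ₁.2 (h1.trans (hxlt δ₁))
            have h4 : δ₁.1 < x δ₂ := (hx1 δ₂).2.2.2 δ₁.1 δ₁.2 hlt
            exact absurd (h4.trans h2) (not_lt.2 h3)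
          rintro _ ⟨⟨δ₁, rfl⟩, h1, h2⟩ _ ⟨⟨δ₂, rfl⟩, h3, h4⟩
          rcases lt_trichotomy δ₁.1 δ₂.1 with h | h | h
          · exact (key δ₁ δ₂ h h1 h4).elim
          · rw [Subtype.ext h]
          · exact (key δ₂ δ₁ h h3 h2).elim
  · intro δ hδ hgood
    exact ⟨x ⟨δ, hδ, hgood⟩, ⟨_, rfl⟩, hxE ⟨δ, hδ, hgood⟩⟩

theorem exists_graph [WellFoundedLT K] (S : SData lam I) (D : DSys S K) (E : I → K → Set K) :
    ∃ X : K → I → Set K, ∀ α, Inv S D E α X (X α) := by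
  have hNb : ∀ (f g : K → I → Set K) (β : K), f β = g β → Nb f β = Nb g β := by
    intro f g β h
    unfold Nb
    rw [h]
  obtain ⟨X, hX⟩ := rec_choice (ι := K) (β := I → Set K) (r := (· < ·)) wellFounded_lt
    (fun α f Y => Inv S D E α f Y)
    (by
      intro α f g Y hfg h
      refine ⟨h.sub, h.card, ?_, h.ladder, h.hit⟩
      intro n β hβ x hx
      rw [← hNb f g β (hfg β (D.sub n α hβ))]
      exact h.disj n β hβ x hx)
    (by
      intro α f hf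
      choose Y h1 h2 h3 h4 h5 using fun n => step_one (D := D) (E := E) (X := f) (α := α) hf n
      exact ⟨Y, h1, h2, h3, fun n m δ hδ => h4 n m δ hδ, h5⟩)
  exact ⟨X, hX⟩

/-- Let `lam` be a singular strong limit cardinal with `2 ^ lam = lam⁺`. On a well-ordered set `K`
of type `lam⁺` there are sets `N α`, any two of which have fewer than `lam` common elements, such
that each unbounded set meets `N α` for all sufficiently large `α`. -/
theorem exists_family [WellFoundedLT K] (hsing : lam.IsSingular)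
    (hstrong : ∀ c < lam, (2 : Cardinal.{u}) ^ c ≤ lam) (h2 : (2 : Cardinal.{u}) ^ lam = Order.succ lam)
    (hK : #K = Order.succ lam) (hI : ∀ a : K, #(Iio a) ≤ lam) :
    ∃ N : K → Set K, (∀ α, N α ⊆ Iio α) ∧ (∀ α β, α ≠ β → #(N α ∩ N β : Set K) < lam) ∧
      ∀ A : Set K, (∀ γ, ∃ α ∈ A, γ < α) → ∃ b, ∀ α, b < α → (N α ∩ A).Nonempty := by
  obtain ⟨S⟩ := exists_sdata lam hsing
  have hlam : ℵ₀ ≤ lam := hsing.aleph0_le
  obtain ⟨i0, -⟩ := S.cof 0 (aleph0_pos.trans_le hlam)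
  have hG : ∀ i, (2 : Cardinal.{u}) ^ S.lv i ≤ lam := fun i => hstrong _ (S.lt_lam i)
  obtain ⟨a, idx, ha⟩ := exists_enum hlam K (Xi S) h2 hK (mk_Xi S i0 hG)
  obtain ⟨g, hg⟩ := exists_injections (K := K) S hlam hI
  let D := mkDSys S a idx ha g hg
  choose E hE using fun n => guess S hK hI hG a idx ha g hg n
  obtain ⟨X, hX⟩ := exists_graph S D E
  have hpair : ∀ α β, β < α → #(Nb X α ∩ Nb X β : Set K) < lam := by
    intro α β hβ
    obtain ⟨n, hn⟩ := D.union α β hβ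
    refine lt_of_le_of_lt (small_mono (t := ⋃ m ∈ Iio n, X α m) ?_
      (small_biUnion (S.inf n) (Iio n) ((mk_set_le _).trans (S.card_le n)) _
        (fun m hm => ((hX α).card m).trans (S.mono (le_of_lt hm))))) (S.lt_lam n)
    rintro x ⟨hxα, hxβ⟩
    obtain ⟨m, hm⟩ := mem_iUnion.1 hxα
    simp only [mem_iUnion]
    refine ⟨m, ?_, hm⟩
    by_contra hnot
    have h2 : β ∈ D.D m α := D.mono n m α (not_lt.1 hnot) hn
    exact (hX α).disj m β h2 x hm hxβ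
  refine ⟨fun α => Nb X α, ?_, ?_, ?_⟩
  · intro α x hx
    obtain ⟨n, hn⟩ := mem_iUnion.1 hx
    exact (hX α).sub n hn
  · intro α β hne
    rcases lt_or_gt_of_ne hne with h | h
    · rw [inter_comm]
      exact hpair β α h
    · exact hpair α β h
  · intro A hA
    choose δ hδ using fun n => hE n A hA
    obtain ⟨i, hi⟩ := D.capture (fun n => {δ n}) (fun n =>
      small_subsingleton (S.inf n) subsingleton_singleton)
    obtain ⟨b, hb⟩ := strict_bound hlam hK hI ({i} ∪ range δ) (by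
      refine small_union hlam ?_ ?_
      · exact small_subsingleton hlam subsingleton_singleton
      · exact Cardinal.mk_range_le.trans ((S.card_le i0).trans (S.lt_lam i0).le))
    refine ⟨b, ?_⟩
    intro α hbα
    obtain ⟨n, hn⟩ := hi α ((hb i (Or.inl rfl)).trans hbα)
    have hmem : δ n ∈ D.D n α := hn n le_rfl ⟨rfl, (hb _ (Or.inr ⟨n, rfl⟩)).trans hbα⟩
    obtain ⟨x, hxX, hxE⟩ := (hX α).hit n (δ n) hmem (hδ n).2
    exact ⟨x, mem_iUnion.2 ⟨n, hxX⟩, (hδ n).1 hxE⟩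

end

end Pool.Agent.H651R2
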