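import Pool.Agent.H651R2.SingBase

set_option autoImplicit false

/-!
# Guessing unbounded sets at the successor of a singular strong limit cardinal
-/

namespace Pool.Agent.H651R2

open Cardinal Set

universe u

section

variable {lam : Cardinal.{u}} {I : Type u} [LinearOrder I]

/-- a set of cardinality at least `lam` with a filtration -/
def FL (S : SData lam I) : Type u := Σ i : I, (S.lv i).out

/-- the levels of the filtration -/
def Lv (S : SData lam I) (i : I) : Set (FL S) := {x | x.1 ≤ i}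

theorem mk_Lv (S : SData lam I) (i : I) : #(Lv S i) ≤ S.lv i := by
  have h : Lv S i ⊆ ⋃ n : I, {x : FL S | x.1 = n ∧ n ≤ i} := by
    intro x hx
    exact mem_iUnion.2 ⟨x.1, rfl, hx⟩
  refine small_mono h (small_iUnion (S.inf i) (S.card_le i) _ ?_)
  intro n
  by_cases hn : n ≤ i
  · have h2 : {x : FL S | x.1 = n ∧ n ≤ i} ⊆ range (fun y : (S.lv n).out => (⟨n, y⟩ : FL S)) := by
      rintro ⟨k, y⟩ ⟨h1, _⟩
      simp only at h1
      subst h1
      exact ⟨y, rfl⟩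
    refine small_mono h2 ?_
    refine Cardinal.mk_range_le.trans ?_
    rw [Cardinal.mk_out]
    exact S.mono hn
  · have : {x : FL S | x.1 = n ∧ n ≤ i} = ∅ := by
      ext x
      simp [hn]
    rw [this]
    simp

theorem lam_le_mk_FL (S : SData lam I) : lam ≤ #(FL S) := by
  by_contra hlt
  rw [not_le] at hlt
  obtain ⟨i, hi⟩ := S.cof _ (S.succ_lt _ hlt)
  have : Function.Injective (fun y : (S.lv i).out => (⟨i, y⟩ : FL S)) := by
    intro x y h
    simpa using (Sigma.mk.inj h).2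
  have h2 : S.lv i ≤ #(FL S) := by
    calc S.lv i = #((S.lv i).out) := (Cardinal.mk_out _).symm
      _ ≤ #(FL S) := Cardinal.mk_le_of_injective this
  exact absurd (hi.trans h2) (not_le.2 (Order.lt_succ _))

/-- index type for the simultaneous guessing -/
def Xi (S : SData lam I) : Type u := Σ i : I, Set (Lv S i)

theorem SData.lam_inf (S : SData lam I) (i : I) : ℵ₀ ≤ lam := (S.inf i).trans (S.lt_lam i).le

theorem mk_Xi (S : SData lam I) (i0 : I) (hG : ∀ i, (2 : Cardinal.{u}) ^ S.lv i ≤ lam) :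
    #(Xi S) ≤ lam := by
  unfold Xi
  rw [Cardinal.mk_sigma]
  have h : ∀ i : I, #(Set (Lv S i)) ≤ lam := by
    intro i
    rw [Cardinal.mk_set]
    exact (Cardinal.power_le_power_left two_ne_zero (mk_Lv S i)).trans (hG i)
  calc Cardinal.sum (fun i : I => #(Set (Lv S i))) ≤ Cardinal.sum (fun _ : I => lam) :=
        Cardinal.sum_le_sum _ _ h
    _ = #I * lam := by rw [Cardinal.sum_const']
    _ ≤ lam * lam := mul_le_mul' ((S.card_le i0).trans (S.lt_lam i0).le) le_rfl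
    _ = lam := Cardinal.mul_eq_self (S.lam_inf i0)

theorem exists_enum (hlam : ℵ₀ ≤ lam) (K X : Type u)
    (h2 : (2 : Cardinal.{u}) ^ lam = Order.succ lam)
    (hK : #K = Order.succ lam) (hX : #X ≤ lam) :
    ∃ (a : K → X → Set K) (idx : (X → Set K) → K),
      ∀ F : X → Set K, (∀ ξ, #(F ξ) ≤ lam) → a (idx F) = F := by
  classical
  have hK2 : #K ^ lam = #K := by
    rw [hK, ← h2, ← Cardinal.power_mul, Cardinal.mul_eq_self hlam]
  have hK0 : #K ≠ 0 := by
    rw [hK]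
    exact (Order.bot_lt_succ lam).ne'
  have hKinf : ℵ₀ ≤ #K := by
    rw [hK]
    exact hlam.trans (Order.le_succ _)
  have h1 : #{s : Set K // #s ≤ lam} ≤ #K := by
    refine (Cardinal.mk_bounded_set_le K lam).trans ?_
    rw [max_eq_left hKinf, hK2]
  have h3 : #(X → {s : Set K // #s ≤ lam}) ≤ #K := by
    rw [← Cardinal.power_def]
    calc #{s : Set K // #s ≤ lam} ^ #X ≤ #K ^ #X := Cardinal.power_le_power_right h1
      _ ≤ #K ^ lam := Cardinal.power_le_power_left hK0 hX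
      _ = #K := hK2
  obtain ⟨φ⟩ := h3
  have hne : Nonempty K := by
    rw [← Cardinal.mk_ne_zero_iff]
    exact hK0
  let a : K → X → Set K := fun i => if h : ∃ F, φ F = i then fun ξ => (h.choose ξ).1 else fun _ => ∅
  let idx : (X → Set K) → K := fun F =>
    if h : ∀ ξ, #(F ξ) ≤ lam then φ (fun ξ => ⟨F ξ, h ξ⟩) else Classical.arbitrary K
  refine ⟨a, idx, ?_⟩
  intro F hF
  have hidx : idx F = φ (fun ξ => ⟨F ξ, hF ξ⟩) := dif_pos hF
  have h3 : ∃ F', φ F' = φ (fun ξ => ⟨F ξ, hF ξ⟩) := ⟨_, rfl⟩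
  have ha : a (φ (fun ξ => ⟨F ξ, hF ξ⟩)) = fun ξ => (h3.choose ξ).1 := dif_pos h3
  rw [hidx, ha]
  have h4 := φ.injective h3.choose_spec
  funext ξ
  exact congrArg Subtype.val (congrFun h4 ξ)

end

section
variable {lam : Cardinal.{u}} {K : Type u} [LinearOrder K]

theorem small_Iic {c : Cardinal.{u}} (hc : ℵ₀ ≤ c) {x : K} (h : #(Iio x) ≤ c) : #(Iic x) ≤ c := by
  refine small_mono (t := Iio x ∪ {x}) ?_ (small_union hc h ?_)
  · intro y hy
    rcases lt_or_eq_of_le (show y ≤ x from hy) with h | h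
    · exact Or.inl h
    · exact Or.inr h
  · exact small_subsingleton hc subsingleton_singleton

theorem strict_bound (hlam : ℵ₀ ≤ lam) (hK : #K = Order.succ lam) (hI : ∀ a : K, #(Iio a) ≤ lam)
    (s : Set K) (hs : #s ≤ lam) : ∃ b, ∀ x ∈ s, x < b := by
  by_contra h
  push Not at h
  have h1 : (univ : Set K) ⊆ ⋃ x ∈ s, Iic x := by
    intro b _
    obtain ⟨x, hx, hbx⟩ := h b
    simp only [mem_iUnion]
    exact ⟨x, hx, hbx⟩
  have h2 : #(univ : Set K) ≤ lam :=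
    small_mono h1 (small_biUnion hlam s hs _ fun x _ => small_Iic hlam (hI x))
  rw [Cardinal.mk_univ, hK] at h2
  exact absurd h2 (not_le.2 (Order.lt_succ _))

/-- Good ladders: cofinal sets of order type `c⁺` -/
structure Good (c : Cardinal.{u}) (δ : K) (E : Set K) : Prop where
  sub : E ⊆ Iio δ
  card_le : #E ≤ Order.succ c
  not_small : ¬ #E ≤ c
  bdd : ∀ γ < δ, #(E ∩ Iic γ : Set K) ≤ c

end

section
variable {lam : Cardinal.{u}} {I : Type u} [LinearOrder I] {K : Type u} [LinearOrder K]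
  [WellFoundedLT K]

omit [WellFoundedLT K] in
theorem exists_injections (S : SData lam I) (hlam : ℵ₀ ≤ lam) (hI : ∀ a : K, #(Iio a) ≤ lam) :
    ∃ g : K → K → FL S, ∀ α, InjOn (g α) (Iio α) := by
  classical
  have h : ∀ α : K, ∃ g : K → FL S, InjOn g (Iio α) := by
    intro α
    have h1 : #(Iio α) ≤ #(FL S) := (hI α).trans (lam_le_mk_FL S)
    obtain ⟨φ⟩ := h1
    have hL : Nonempty (FL S) := by
      rw [← Cardinal.mk_ne_zero_iff]
      intro h0
      have := lam_le_mk_FL S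
      rw [h0] at this
      exact absurd (hlam.trans this) (not_le.2 Cardinal.aleph0_pos)
    refine ⟨fun x => if h : x ∈ Iio α then φ ⟨x, h⟩ else Classical.arbitrary (FL S), ?_⟩
    intro x hx y hy hxy
    simp only [dif_pos hx, dif_pos hy] at hxy
    exact Subtype.ext_iff.1 (φ.injective hxy)
  choose g hg using h
  exact ⟨g, hg⟩

/-- the candidate ladders -/
def lad (S : SData lam I) (a : K → Xi S → Set K) (g : K → K → FL S) (ξ : Xi S) (δ : K) : Set K :=
  ⋃ β ∈ {β | β < δ ∧ ∃ y ∈ ξ.2, g δ β = y.1}, a β ξ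

/-- unbounded sets are guessed on ladders of order type `(lv n)⁺` -/
theorem guess (S : SData lam I) (hK : #K = Order.succ lam) (hI : ∀ a : K, #(Iio a) ≤ lam)
    (hG : ∀ i, (2 : Cardinal.{u}) ^ S.lv i ≤ lam)
    (a : K → Xi S → Set K) (idx : (Xi S → Set K) → K)
    (ha : ∀ F : Xi S → Set K, (∀ ξ, #(F ξ) ≤ lam) → a (idx F) = F)
    (g : K → K → FL S) (hg : ∀ α, InjOn (g α) (Iio α)) (n : I) :
    ∃ E : K → Set K, ∀ A : Set K, (∀ γ, ∃ α ∈ A, γ < α) →
      ∃ δ, E δ ⊆ A ∧ Good (S.lv n) δ (E δ) := by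
  classical
  by_contra hcon
  push Not at hcon
  have h1 : ∀ ξ : Xi S, ∃ A : Set K, (∀ γ, ∃ α ∈ A, γ < α) ∧
      ∀ δ, lad S a g ξ δ ⊆ A → ¬ Good (S.lv n) δ (lad S a g ξ δ) :=
    fun ξ => hcon (lad S a g ξ)
  choose A hA hfail using h1
  have hlam : ℵ₀ ≤ lam := S.lam_inf n
  have hc := S.inf n
  have hclam : S.lv n ≤ lam := (S.lt_lam n).le
  -- the well-order of length `(lv n)⁺`
  let W := (Order.succ (S.lv n)).ord.ToType
  have hWcard : #W = Order.succ (S.lv n) := Cardinal.mk_ord_toType _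
  have hWlam : #W ≤ lam := by
    rw [hWcard]
    exact (S.succ_lt _ (S.lt_lam n)).le
  have hWI : ∀ w : W, #(Iio w) ≤ S.lv n := by
    intro w
    have h := Cardinal.mk_Iio_lt w (by rw [hWcard]; simp [W])
    rw [hWcard] at h
    exact Order.lt_succ_iff.1 h
  have hWnot : ¬ #(univ : Set W) ≤ S.lv n := by
    rw [Cardinal.mk_univ, hWcard]
    exact not_le.2 (Order.lt_succ _)
  have hWIic : ∀ w : W, #(Iic w) ≤ S.lv n := fun w => small_Iic hc (hWI w)
  have hWunb : ∀ J : Set W, (¬ #J ≤ S.lv n) → ∀ w, ∃ v ∈ J, w < v := by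
    intro J hJ w
    by_contra h
    push Not at h
    exact hJ (small_mono (fun v hv => h v hv) (hWIic w))
  have hXine : Nonempty (Xi S) := ⟨⟨n, ∅⟩⟩
  have hXi := mk_Xi S n hG
  have hKne : Nonempty K := by
    rw [← Cardinal.mk_ne_zero_iff, hK]
    exact (Order.bot_lt_succ lam).ne'
  -- initial segments of the construction
  let seg : (W → Xi S → K) → W → Xi S → Set K := fun B μ ξ => {x | ∃ ρ < μ, x = B ρ ξ}
  have hseg : ∀ B μ ξ, #(seg B μ ξ) ≤ S.lv n := by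
    intro B μ ξ
    have : seg B μ ξ ⊆ (fun ρ => B ρ ξ) '' Iio μ := by
      rintro x ⟨ρ, hρ, rfl⟩
      exact ⟨ρ, hρ, rfl⟩
    exact small_mono this (Cardinal.mk_image_le.trans (hWI μ))
  obtain ⟨B, hB⟩ := rec_choice (ι := W) (β := Xi S → K) (r := (· < ·)) wellFounded_lt
    (fun ν B b => ∀ ξ, b ξ ∈ A ξ ∧
      (∀ μ < ν, ∀ ξ', B μ ξ' < b ξ) ∧ (∀ μ ≤ ν, idx (seg B μ) < b ξ))
    (by
      intro ν f f' b hff h ξ
      have hsegeq : ∀ μ ≤ ν, seg f μ = seg f' μ := by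
        intro μ hμ
        funext ξ'
        ext x
        constructor
        · rintro ⟨ρ, hρ, rfl⟩
          exact ⟨ρ, hρ, by rw [hff ρ (lt_of_lt_of_le hρ hμ)]⟩
        · rintro ⟨ρ, hρ, rfl⟩
          exact ⟨ρ, hρ, by rw [hff ρ (lt_of_lt_of_le hρ hμ)]⟩
      obtain ⟨h1, h3, h4⟩ := h ξ
      refine ⟨h1, ?_, ?_⟩
      · intro μ hμ ξ'
        rw [← hff μ hμ]
        exact h3 μ hμ ξ'
      · intro μ hμ
        rw [← hsegeq μ hμ]
        exact h4 μ hμ)
    (by
      intro ν f _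
      obtain ⟨γ, hγ⟩ := strict_bound hlam hK hI
        ((⋃ μ ∈ Iio ν, range (f μ)) ∪ (fun μ => idx (seg f μ)) '' Iic ν) (by
          refine small_union hlam ?_ ?_
          · refine small_biUnion hlam _ ((hWI ν).trans hclam) _ ?_
            intro μ _
            exact Cardinal.mk_range_le.trans hXi
          · exact Cardinal.mk_image_le.trans ((hWIic ν).trans hclam))
      have : ∀ ξ, ∃ α ∈ A ξ, γ < α := fun ξ => hA ξ γ
      choose b hb1 hb2 using this
      refine ⟨b, fun ξ => ⟨hb1 ξ, ?_, ?_⟩⟩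
      · intro μ hμ ξ'
        refine (hγ _ (Or.inl ?_)).trans (hb2 ξ)
        simp only [mem_iUnion]
        exact ⟨μ, hμ, ξ', rfl⟩
      · intro μ hμ
        exact (hγ _ (Or.inr ⟨μ, hμ, rfl⟩)).trans (hb2 ξ))
  -- the supremum
  have hbdd : ∃ γ : K, ∀ ν ξ, B ν ξ < γ := by
    obtain ⟨γ, hγ⟩ := strict_bound hlam hK hI (⋃ ν : W, range (B ν)) (by
      refine small_iUnion hlam hWlam _ ?_
      intro ν
      exact Cardinal.mk_range_le.trans hXi)
    exact ⟨γ, fun ν ξ => hγ _ (mem_iUnion.2 ⟨ν, ξ, rfl⟩)⟩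
  obtain ⟨δ, hδ1, hδ2⟩ : ∃ δ : K, (∀ ν ξ, B ν ξ < δ) ∧ ∀ γ < δ, ∃ ν ξ, γ ≤ B ν ξ := by
    have hwf : WellFounded ((· < ·) : K → K → Prop) := wellFounded_lt
    refine ⟨hwf.min {γ | ∀ ν ξ, B ν ξ < γ} hbdd, hwf.min_mem _ hbdd, ?_⟩
    intro γ hγ
    by_contra h
    push Not at h
    exact hwf.not_lt_min (s := {γ | ∀ ν ξ, B ν ξ < γ}) h hγ
  -- codes
  let β : W → K := fun ν => idx (seg B ν)
  have hβδ : ∀ ν, β ν < δ := by
    intro ν
    obtain ⟨ξ⟩ := hXine
    exact ((hB ν ξ).2.2 ν le_rfl).trans (hδ1 ν ξ)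
  have haβ : ∀ ν, a (β ν) = seg B ν := fun ν =>
    ha _ (fun ξ => (hseg B ν ξ).trans hclam)
  obtain ⟨i, hi⟩ : ∃ i : I, ¬ #{ν : W | g δ (β ν) ∈ Lv S i} ≤ S.lv n := by
    by_contra h
    push Not at h
    apply hWnot
    refine small_mono (t := ⋃ i : I, {ν : W | g δ (β ν) ∈ Lv S i}) ?_
      (small_iUnion hc (S.card_le n) _ h)
    intro ν _
    exact mem_iUnion.2 ⟨(g δ (β ν)).1, le_refl (g δ (β ν)).1⟩
  let ξ : Xi S := ⟨i, {y | ∃ ν : W, g δ (β ν) = y.1}⟩
  have hlad : lad S a g ξ δ = {x | ∃ ρ : W, x = B ρ ξ} := by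
    ext x
    constructor
    · intro hx
      unfold lad at hx
      simp only [mem_iUnion] at hx
      obtain ⟨b, ⟨hbδ, y, ⟨ν, hν⟩, hy⟩, hx⟩ := hx
      have hb : b = β ν := hg δ hbδ (hβδ ν) (hy.trans hν.symm)
      rw [hb, haβ ν] at hx
      obtain ⟨ρ, _, rfl⟩ := hx
      exact ⟨ρ, rfl⟩
    · rintro ⟨ρ, rfl⟩
      obtain ⟨ν, hν, hρν⟩ := hWunb _ hi ρ
      unfold lad
      simp only [mem_iUnion]
      refine ⟨β ν, ⟨hβδ ν, ⟨g δ (β ν), hν⟩, ⟨ν, rfl⟩, rfl⟩, ?_⟩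
      rw [haβ ν]
      exact ⟨ρ, hρν, rfl⟩
  have hmono : StrictMono (fun ν => B ν ξ) := by
    intro μ ν hμν
    exact (hB ν ξ).2.1 μ hμν ξ
  have hrange : {x | ∃ ρ : W, x = B ρ ξ} = range (fun ν => B ν ξ) := by
    ext x
    constructor
    · rintro ⟨ρ, rfl⟩
      exact ⟨ρ, rfl⟩
    · rintro ⟨ρ, rfl⟩
      exact ⟨ρ, rfl⟩
  refine hfail ξ δ ?_ ?_
  · rw [hlad]
    rintro x ⟨ρ, rfl⟩
    exact (hB ρ ξ).1
  · rw [hlad]
    refine ⟨?_, ?_, ?_, ?_⟩
    · rintro x ⟨ρ, rfl⟩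
      exact hδ1 ρ ξ
    · rw [hrange]
      exact Cardinal.mk_range_le.trans hWcard.le
    · rw [hrange]
      rw [Cardinal.mk_range_eq _ hmono.injective, hWcard]
      exact not_le.2 (Order.lt_succ _)
    · intro γ hγ
      obtain ⟨ν, ξ', hν⟩ := hδ2 γ hγ
      refine small_mono (t := (fun ρ => B ρ ξ) '' Iic ν) ?_
        (Cardinal.mk_image_le.trans (hWIic ν))
      rintro x ⟨⟨ρ, rfl⟩, hx⟩
      refine ⟨ρ, ?_, rfl⟩
      by_contra hlt
      rw [mem_Iic, not_le] at hlt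
      have h5 := (hB ρ ξ).2.1 ν hlt ξ'
      exact absurd (hν.trans_lt h5) (not_lt.2 hx)

end

end Pool.Agent.H651R2
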